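import Pool.Agent.helper26.T5.SpecB

/-!
# Project T5, row LEMB
-/

set_option autoImplicit false

namespace Pool.Agent.helper26.T5

open NumberField Pool.Agent.helper3.FT Pool.Agent.helper47.RA Pool.Agent.T5

theorem lemb : LEMB := by
  intro K _ _ Q hD
  have hs0 : (0 : ℝ) ≤ |(Q.D : ℝ)| := abs_nonneg _
  have hDR : (Q.D : ℝ) < 0 := by exact_mod_cast hD
  set s : ℝ := √|(Q.D : ℝ)| with hs
  have hs2 : s ^ 2 = -(Q.D : ℝ) := by
    rw [hs, Real.sq_sqrt hs0, abs_of_neg hDR]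
  have htt : ((Q.t : ℝ)) ^ 2 = Q.t := by exact_mod_cast Q.t_sq
  have hDk : (Q.D : ℝ) = Q.t + 4 * Q.k := by exact_mod_cast Q.hk
  set θ : ℂ := ⟨(Q.t : ℝ) / 2, s / 2⟩ with hθ
  have hθ2 : θ * θ = (Q.k : ℂ) + Q.t * θ := by
    apply Complex.ext
    · simp [hθ]
      nlinarith [hs2, htt, hDk]
    · simp [hθ]
      ring
  -- the real coordinate
  choose X hX using Q.exists_re
  have hform : ∀ x y : ℤ, X (x + y * Q.ω) = x ∧ Q.Y (x + y * Q.ω) = y := by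
    intro x y
    have h := Q.lin (hX (x + y * Q.ω))
    exact ⟨h.1.symm, h.2.symm⟩
  have hE : ∀ x y : ℤ, ((X (x + y * Q.ω) : ℤ) : ℂ) + (Q.Y (x + y * Q.ω) : ℂ) * θ = (x : ℂ) + (y : ℂ) * θ := by
    intro x y
    rw [(hform x y).1, (hform x y).2]
  let E : 𝓞 K →+* ℂ :=
    { toFun := fun a => (X a : ℂ) + (Q.Y a : ℂ) * θ
      map_one' := by
        have h := hE 1 0
        simpa using h
      map_zero' := by
        have h := hE 0 0
        simpa using h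
      map_add' := by
        intro a b
        have h := hE (X a + X b) (Q.Y a + Q.Y b)
        have e : (((X a + X b : ℤ) : 𝓞 K) + ((Q.Y a + Q.Y b : ℤ) : 𝓞 K) * Q.ω) = a + b := by
          push_cast
          linear_combination -(hX a) - hX b
        rw [e] at h
        show ((X (a + b) : ℤ) : ℂ) + (Q.Y (a + b) : ℂ) * θ = _
        rw [h]
        push_cast
        ring
      map_mul' := by
        intro a b
        have h := hE (X a * X b + Q.k * Q.Y a * Q.Y b) (X a * Q.Y b + X b * Q.Y a + Q.t * Q.Y a * Q.Y b)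
        have e : (((X a * X b + Q.k * Q.Y a * Q.Y b : ℤ) : 𝓞 K) +
            ((X a * Q.Y b + X b * Q.Y a + Q.t * Q.Y a * Q.Y b : ℤ) : 𝓞 K) * Q.ω) = a * b := by
          have e1 : a * b = ((X a : 𝓞 K) + (Q.Y a : 𝓞 K) * Q.ω) * ((X b : 𝓞 K) + (Q.Y b : 𝓞 K) * Q.ω) := by
            rw [← hX a, ← hX b]
          rw [e1]
          push_cast
          linear_combination (-(Q.Y a : 𝓞 K) * (Q.Y b : 𝓞 K)) * Q.hω
        rw [e] at h
        show ((X (a * b) : ℤ) : ℂ) + (Q.Y (a * b) : ℂ) * θ = _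
        rw [h]
        push_cast
        linear_combination (-(Q.Y a : ℂ) * (Q.Y b : ℂ)) * hθ2 }
  have hEa : ∀ a, E a = (X a : ℂ) + (Q.Y a : ℂ) * θ := fun a => rfl
  have hnf : ∀ a, Complex.normSq (E a) = (((X a) ^ 2 + Q.t * X a * Q.Y a - Q.k * (Q.Y a) ^ 2 : ℤ) : ℝ) := by
    intro a
    rw [hEa, Complex.normSq_apply]
    simp [hθ]
    nlinarith [hs2, htt, hDk]
  have hN : ∀ a, a * Q.cj a = (((X a) ^ 2 + Q.t * X a * Q.Y a - Q.k * (Q.Y a) ^ 2 : ℤ) : 𝓞 K) := by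
    intro a
    have h := Q.norm_form (X a) (Q.Y a)
    rw [← hX a] at h
    exact h
  have hv2 : ∀ a, Q.v₁ a ^ 2 = (((X a) ^ 2 + Q.t * X a * Q.Y a - Q.k * (Q.Y a) ^ 2 : ℤ) : ℝ) := by
    intro a
    have h1 : Q.v₁ a ^ 2 = Q.v₁ (a * Q.cj a) := by
      rw [Q.v₁_mul, Q.v₁_cj, ← Q.himag hD a, pow_two]
    rw [h1, hN, Q.v₁_int, ← hnf]
    exact abs_of_nonneg (Complex.normSq_nonneg _)
  have hnn : ∀ a, (nn a : ℝ) = Q.v₁ a ^ 2 := by
    intro a
    have h1 := Q.hnorm a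
    rw [← Q.himag hD a, ← pow_two] at h1
    exact h1
  refine ⟨E, ?_, ?_, ?_, hnn, ?_⟩
  · intro a
    have h1 : ‖E a‖ ^ 2 = Q.v₁ a ^ 2 := by
      rw [← Complex.normSq_eq_norm_sq, hnf, hv2]
    exact (pow_left_inj₀ (norm_nonneg _) (Q.v₁_nonneg a) two_ne_zero).1 h1
  · intro a
    rw [hEa]
    simp [hθ]
  · intro a
    have h2 : Q.cj a = ((X a + Q.Y a * Q.t : ℤ) : 𝓞 K) + ((-(Q.Y a) : ℤ) : 𝓞 K) * Q.ω := by
      have h := Q.cj_form (X a) (Q.Y a)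
      rw [← hX a] at h
      exact h
    have h3 := hE (X a + Q.Y a * Q.t) (-(Q.Y a))
    rw [← h2] at h3
    rw [hEa, h3, hEa]
    apply Complex.ext
    · simp [hθ]
      ring
    · simp [hθ]
  · intro a
    rw [hN a]
    have h1 : (nn a : ℝ) = (((X a) ^ 2 + Q.t * X a * Q.Y a - Q.k * (Q.Y a) ^ 2 : ℤ) : ℝ) := by
      rw [hnn, hv2]
    have h2 : ((nn a : ℕ) : ℤ) = ((X a) ^ 2 + Q.t * X a * Q.Y a - Q.k * (Q.Y a) ^ 2 : ℤ) := by
      exact_mod_cast h1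
    rw [← h2]
    simp

end Pool.Agent.helper26.T5
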