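import Pool.Agent.helper94.T5.SpecT

set_option autoImplicit false

/-!
# T5, row TA3
-/

namespace Pool.Agent.T5T

open Finset Pool.Agent.T5

theorem TA3 (hTA1 : TA1_stmt) : TA3_stmt := by
  intro κ N Y Y₂ hκ hN hY hY₂ t
  by_cases hT : IsT t
  swap
  · constructor
    · intro h
      exact absurd h.tt hT
    · intro h
      exact absurd h.1 hT
  obtain ⟨a1, -, -, a4, -⟩ := hTA1 t hT
  have hn1 := hT.n1
  have hk1 := hT.k1
  have hnR : (0 : ℝ) < (t.1.1 : ℝ) := by exact_mod_cast hn1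
  have hkR : (0 : ℝ) < (t.1.2 : ℝ) := by exact_mod_cast hk1
  have b1 : (lam t : ℝ) * (t.1.1 : ℝ) ^ 2 = (t.2.1 : ℝ) * t.2.2.1 + t.2.2.2 * (t.1.2 : ℝ) ^ 2 := by
    exact_mod_cast a1
  have b4 : (dis t : ℝ) * ((t.1.1 : ℝ) * t.1.2) ^ 2 =
      ((t.2.2.2 : ℝ) * t.2.2.1 - lam t * t.2.1) ^ 2 - 4 * (t.2.2.2 : ℝ) ^ 2 * lam t * (t.1.2 : ℝ) ^ 2 := by
    exact_mod_cast a4
  set y : ℝ := √Y with hy
  set v : ℝ := √Y₂ with hv
  set s : ℝ := √N with hs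
  have hy0 : 0 < y := Real.sqrt_pos.2 hY
  have hv0 : 0 < v := Real.sqrt_pos.2 hY₂
  have hs0 : 0 < s := Real.sqrt_pos.2 hN
  have hY2 : Y = y ^ 2 := (Real.sq_sqrt hY.le).symm
  have hV2 : Y₂ = v ^ 2 := (Real.sq_sqrt hY₂.le).symm
  have hN2 : N = s ^ 2 := (Real.sq_sqrt hN.le).symm
  have eN : sN N Y Y₂ = y ^ 2 * v / s := by
    rw [sN, ← hv, ← hs, ← hY2]
  have eK : sK N Y Y₂ = y * v ^ 2 / s := by
    rw [sK, ← hy, ← hs, ← hV2]
  have eM : sM N Y Y₂ = y ^ 3 * v / s := by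
    rw [sM, ← hy, ← hv, ← hs]
    have : Y * y = y ^ 3 := by rw [hY2]; ring
    rw [this]
  have eG : sG N Y Y₂ = y * v ^ 3 / s := by
    rw [sG, ← hy, ← hv, ← hs]
    have : y * Y₂ * v = y * v ^ 3 := by rw [hV2]; ring
    rw [this]
  set n : ℝ := (t.1.1 : ℝ) with hn
  set k : ℝ := (t.1.2 : ℝ) with hk
  set m : ℝ := (t.2.1 : ℝ) with hm
  set g : ℝ := (t.2.2.1 : ℝ) with hg
  set Z : ℝ := (t.2.2.2 : ℝ) with hZ
  set L : ℝ := (lam t : ℝ) with hL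
  set W : ℝ := -(dis t : ℝ) with hW
  have b4' : W * (n * k) ^ 2 = 4 * Z ^ 2 * L * k ^ 2 - (Z * g - L * m) ^ 2 := by
    rw [hW]
    linear_combination -b4
  -- the scaled quantities
  have hLa : T5V.La (Z / Y) (n / sN N Y Y₂) (k / sK N Y Y₂) (m / sM N Y Y₂) (g / sG N Y Y₂) = L / Y₂ := by
    rw [T5V.La, eN, eK, eM, eG, hY2, hV2]
    have hL' : L = (m * g + Z * k ^ 2) / n ^ 2 := by
      rw [← b1]
      field_simp
    rw [hL']
    field_simp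
  have hWd : T5V.Wd (Z / Y) (n / sN N Y Y₂) (k / sK N Y Y₂) (m / sM N Y Y₂) (g / sG N Y Y₂) = W / N := by
    rw [T5V.Wd, hLa, eN, eK, eM, eG, hY2, hV2, hN2]
    have hW' : W = (4 * Z ^ 2 * L * k ^ 2 - (Z * g - L * m) ^ 2) / (n * k) ^ 2 := by
      rw [← b4']
      field_simp
    rw [hW']
    field_simp
  have hsW : √(W / N) = √W / s := Real.sqrt_div' _ hN.le
  have hS1 : T5V.S1 (Z / Y) (n / sN N Y Y₂) (k / sK N Y Y₂) (m / sM N Y Y₂) (g / sG N Y Y₂) =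
      n * √W / (2 * Z * √L) := by
    rw [T5V.S1, hWd, hLa, hsW, Real.sqrt_div' _ hY₂.le, ← hv, eN, hY2]
    rcases eq_or_ne Z 0 with hZ0 | hZ0
    · simp [hZ0]
    rcases eq_or_ne (√L) 0 with hL0 | hL0
    · simp [hL0]
    field_simp
  have hS2 : T5V.S2 (Z / Y) (n / sN N Y Y₂) (k / sK N Y Y₂) (m / sM N Y Y₂) (g / sG N Y Y₂) =
      k * √W / (2 * √Z * L) := by
    rw [T5V.S2, hWd, hLa, hsW, Real.sqrt_div' _ hY.le, ← hy, eK, hV2]
    rcases eq_or_ne (√Z) 0 with hZ0 | hZ0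
    · simp [hZ0]
    rcases eq_or_ne L 0 with hL0 | hL0
    · simp [hL0]
    field_simp
  have hmem : sp N Y Y₂ t ∈ T5V.CenR κ ↔ (1 / 2 < Z / Y ∧ Z / Y ≤ 1 ∧ 0 < n / sN N Y Y₂ ∧ 0 < k / sK N Y Y₂ ∧
      κ ≤ L / Y₂ ∧ L / Y₂ ≤ √W / s ∧ 1 / 2 < W / N ∧ W / N ≤ 1 ∧ κ ≤ n * √W / (2 * Z * √L) ∧
      κ ≤ k * √W / (2 * √Z * L)) := by
    rw [← hS1, ← hS2, ← hsW, ← hWd, ← hLa]
    rfl
  have hsN : 0 < sN N Y Y₂ := by
    rw [eN]
    positivity
  have hsK : 0 < sK N Y Y₂ := by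
    rw [eK]
    positivity
  rw [hmem]
  constructor
  · intro h
    have z1 : Y / 2 < Z := h.z1
    have z2 : Z ≤ Y := h.z2
    have d1 : N / 2 < W := h.d1
    have d2 : W ≤ N := h.d2
    have l1 : κ * Y₂ ≤ L := h.l1
    have l2 : L * s ≤ Y₂ * √W := h.l2
    have s1 : 2 * κ * Z * √L ≤ n * √W := h.s1
    have s2 : 2 * κ * √Z * L ≤ k * √W := h.s2
    have hZ0 : 0 < Z := by linarith
    have hL0 : 0 < L := lt_of_lt_of_le (by positivity) l1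
    have hsL : 0 < √L := Real.sqrt_pos.2 hL0
    have hsZ : 0 < √Z := Real.sqrt_pos.2 hZ0
    refine ⟨hT, ?_, ?_, by positivity, by positivity, ?_, ?_, ?_, ?_, ?_, ?_⟩
    · rw [lt_div_iff₀ hY]
      linarith
    · rw [div_le_one hY]
      exact z2
    · rw [le_div_iff₀ hY₂]
      exact l1
    · rw [div_le_div_iff₀ hY₂ hs0]
      linarith
    · rw [lt_div_iff₀ hN]
      linarith
    · rw [div_le_one hN]
      exact d2
    · rw [le_div_iff₀ (by positivity)]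
      linarith
    · rw [le_div_iff₀ (by positivity)]
      linarith
  · rintro ⟨-, z1, z2, -, -, l1, l2, d1, d2, s1, s2⟩
    rw [lt_div_iff₀ hY] at z1
    rw [div_le_one hY] at z2
    rw [le_div_iff₀ hY₂] at l1
    rw [div_le_div_iff₀ hY₂ hs0] at l2
    rw [lt_div_iff₀ hN] at d1
    rw [div_le_one hN] at d2
    have hZ0 : 0 < Z := lt_trans (by positivity) z1
    have hL0 : 0 < L := lt_of_lt_of_le (by positivity) l1
    have hsL : 0 < √L := Real.sqrt_pos.2 hL0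
    have hsZ : 0 < √Z := Real.sqrt_pos.2 hZ0
    rw [le_div_iff₀ (by positivity)] at s1
    rw [le_div_iff₀ (by positivity)] at s2
    refine ⟨hT, ?_, z2, ?_, d2, l1, ?_, ?_, ?_⟩
    · show Y / 2 < Z
      linarith
    · show N / 2 < W
      linarith
    · show L * s ≤ Y₂ * √W
      linarith
    · show 2 * κ * Z * √L ≤ n * √W
      linarith
    · show 2 * κ * √Z * L ≤ k * √W
      linarith

end Pool.Agent.T5T
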